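import Mathlib
import Pool.Agent.H575R3.GRWFinal

/-!
On every infinite connected locally finite vertex-transitive graph whose degree is even, the greedy
random walk returns to its start infinitely often with probability one if it returns at least once
with probability one and simple random walk on the graph is recurrent, and with probability zero in
all other cases.
-/

open MeasureTheory Finset Pool.Agent.H575R3.GRW
open scoped ENNReal

namespace Pool.Agent.Results.MP_3fb035_pr.EvenDegreeLaw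

theorem result {V : Type} [DecidableEq V] [Infinite V] (G : SimpleGraph V) [G.LocallyFinite]
    (hconn : G.Connected) (htrans : ∀ u v : V, ∃ φ : G ≃g G, φ u = v)
    (heven : ∀ v, Even (G.degree v)) (o : V) :
    (∃ (_ : MeasurableSpace (ℕ → V)) (P : Measure (ℕ → V)), IsGRW G o P (fun t ω => ω t)) ∧
    ∀ (Ω : Type) (_ : MeasurableSpace Ω) (P : Measure Ω) (X : ℕ → Ω → V), IsGRW G o P X →
      ((P {ω | ∀ n, ∃ t, n ≤ t ∧ X t ω = o} = 1 ∧
          P {ω | ∃ t, 1 ≤ t ∧ X t ω = o} = 1 ∧ SRWRecurrent G o) ∨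
        (P {ω | ∀ n, ∃ t, n ≤ t ∧ X t ω = o} = 0 ∧
          ¬ (P {ω | ∃ t, 1 ≤ t ∧ X t ω = o} = 1 ∧ SRWRecurrent G o))) := by
  have hc := countable_of_connected G hconn
  refine ⟨exists_isGRW G (neighborFinset_nonempty hconn) o, ?_⟩
  intro Ω mΩ P X h
  obtain ⟨h1, h2⟩ := h.even_law hconn htrans heven
  by_cases hcase : P {ω | ∃ t, 1 ≤ t ∧ X t ω = o} = 1 ∧ SRWRecurrent G o
  · exact Or.inl ⟨h1 ⟨hcase.2, hcase.1⟩, hcase.1, hcase.2⟩
  · exact Or.inr ⟨h2 (fun hh => hcase ⟨hh.2, hh.1⟩), hcase⟩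

end Pool.Agent.Results.MP_3fb035_pr.EvenDegreeLaw
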