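import Mathlib
import Pool.Agent.H575R3.GRWBase
import Pool.Agent.H575R3.GRWExist

/-!
The zero-one law for the event `B` (at least one return) fails for the greedy random walk: on the
Cayley graph of the integers with generators `1, 2, -1, -2` the probability of `B` is strictly
between `0` and `1`.
-/

open MeasureTheory Finset Pool.Agent.H575R3.GRW
open scoped ENNReal

namespace Pool.Agent.Results.MP_3fb035_pr.ZeroOneBFails

/-- The Cayley graph of the additive group of the integers with respect to `1, 2, -1, -2`. -/
def zGraph : SimpleGraph ℤ where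
  Adj u v := u - v = 1 ∨ u - v = -1 ∨ u - v = 2 ∨ u - v = -2
  symm := ⟨fun u v h => by omega⟩
  loopless := ⟨fun u h => by omega⟩

instance : DecidableRel zGraph.Adj := fun u v =>
  inferInstanceAs (Decidable (u - v = 1 ∨ u - v = -1 ∨ u - v = 2 ∨ u - v = -2))

lemma adj_iff (u v : ℤ) : zGraph.Adj u v ↔ (u - v = 1 ∨ u - v = -1 ∨ u - v = 2 ∨ u - v = -2) :=
  Iff.rfl

/-- Every vertex of `zGraph` has finitely many neighbours. -/
instance zLocallyFinite : zGraph.LocallyFinite := fun v =>
  Fintype.ofFinset ({v - 2, v - 1, v + 1, v + 2} : Finset ℤ) (by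
    intro w
    simp only [Finset.mem_insert, Finset.mem_singleton, SimpleGraph.mem_neighborSet, adj_iff]
    omega)

lemma neighborFinset_eq (v : ℤ) : zGraph.neighborFinset v = {v - 2, v - 1, v + 1, v + 2} := by
  ext w
  simp only [SimpleGraph.mem_neighborFinset, Finset.mem_insert, Finset.mem_singleton, adj_iff]
  omega

lemma card_neighborFinset (v : ℤ) : (zGraph.neighborFinset v).card = 4 := by
  rw [neighborFinset_eq]
  rw [Finset.card_insert_of_notMem, Finset.card_insert_of_notMem, Finset.card_insert_of_notMem,
    Finset.card_singleton]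
  · simp
  · simp only [Finset.mem_insert, Finset.mem_singleton]; omega
  · simp only [Finset.mem_insert, Finset.mem_singleton]; omega

/-- `zGraph` is vertex-transitive. -/
theorem transitive (u v : ℤ) : ∃ φ : zGraph ≃g zGraph, φ u = v := by
  refine ⟨{ toEquiv := Equiv.addRight (v - u), map_rel_iff' := ?_ }, ?_⟩
  · intro a b
    simp only [Equiv.coe_addRight, adj_iff]
    constructor <;> intro h <;> omega
  · show u + (v - u) = v
    ring

lemma reach_add (u : ℤ) (n : ℕ) : zGraph.Reachable u (u + n) := by
  induction n with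
  | zero => simp
  | succ n ih =>
    refine ih.trans (SimpleGraph.Adj.reachable ?_)
    rw [adj_iff]
    push_cast
    omega

theorem connected : zGraph.Connected := by
  haveI : Nonempty ℤ := ⟨0⟩
  refine ⟨fun u v => ?_⟩
  rcases le_total u v with h | h
  · have := reach_add u (v - u).toNat
    rwa [show u + ((v - u).toNat : ℤ) = v by omega] at this
  · have := reach_add v (u - v).toNat
    rw [show v + ((u - v).toNat : ℤ) = u by omega] at this
    exact this.symm

/-- the path 0, 1, 2, 0 -/
def loopPath : ℕ → ℤ := fun n => if n = 0 then 0 else if n = 1 then 1 else if n = 2 then 2 else 0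

/-- the path 0, 2, 1, 3 -/
def escPath : ℕ → ℤ := fun n => if n = 0 then 0 else if n = 1 then 2 else if n = 2 then 1 else 3

lemma step_ne_zero {x : ℕ → ℤ} {t : ℕ} {y : ℤ} (h : y ∈ fresh zGraph x t) :
    stepProb zGraph x t y ≠ 0 := by
  unfold stepProb
  rw [if_pos ⟨y, h⟩, if_pos h]
  exact ENNReal.inv_ne_zero.mpr (ENNReal.natCast_ne_top _)

lemma esc_invariant {x : ℕ → ℤ} (hx : Valid zGraph x) (h0 : x 0 = 0) (h1 : x 1 = 2) (h2 : x 2 = 1)
    (h3 : x 3 = 3) (t : ℕ) : 2 ≤ x (t + 3) ∧ base zGraph x (t + 3) = 0 := by
  have heven : ∀ v, Even (zGraph.neighborFinset v).card := fun v => by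
    rw [card_neighborFinset]; decide
  induction t with
  | zero =>
    refine ⟨by rw [h3]; norm_num, ?_⟩
    have f0 : (fresh zGraph x 0).Nonempty := by
      refine ⟨2, ?_⟩
      unfold fresh
      simp [crossed_zero, h0, adj_iff]
    have f1 : (fresh zGraph x 1).Nonempty := by
      refine ⟨1, ?_⟩
      unfold fresh
      rw [crossed_succ, crossed_zero]
      simp [h0, h1, adj_iff]
    have f2 : (fresh zGraph x 2).Nonempty := by
      refine ⟨3, ?_⟩
      unfold fresh
      rw [crossed_succ, crossed_succ, crossed_zero]
      simp [h0, h1, h2, adj_iff]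
    show base zGraph x 3 = 0
    simp only [base, if_pos f0, if_pos f1, if_pos f2, h0]
  | succ t ih =>
    obtain ⟨ih1, ih2⟩ := ih
    have hne : x (t + 3) ≠ base zGraph x (t + 3) := by rw [ih2]; omega
    have hf : (fresh zGraph x (t + 3)).Nonempty := by
      by_contra hc
      exact hne (eq_base_of_stuck heven hx hc)
    have hb : base zGraph x (t + 1 + 3) = 0 := by
      show base zGraph x ((t + 3) + 1) = 0
      rw [base_succ_fresh hf, ih2]
    refine ⟨?_, hb⟩
    have hmem := hx.fresh_mem hf
    unfold fresh at hmem
    rw [Finset.mem_filter, SimpleGraph.mem_neighborFinset, adj_iff] at hmem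
    obtain ⟨hadj, hnew⟩ := hmem
    have hsub := crossed_mono x (show 3 ≤ t + 3 by omega)
    have hc3 : crossed x 3 = {s(1, 3), s(2, 1), s(0, 2)} := by
      rw [crossed_succ, crossed_succ, crossed_succ, crossed_zero]
      simp [h0, h1, h2, h3]
    rw [hc3] at hsub
    show 2 ≤ x (t + 3 + 1)
    by_contra hlt
    push Not at hlt
    apply hnew
    apply hsub
    simp only [Finset.mem_insert, Finset.mem_singleton, Sym2.eq_iff]
    omega

/-- The zero-one law for the event that the greedy random walk returns to its starting point at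
least once fails: `zGraph` is an infinite, connected, locally finite, vertex-transitive simple graph
on which the probability of at least one return lies strictly between `0` and `1`. -/
theorem result :
    Infinite ℤ ∧ zGraph.Connected ∧ (∀ u v : ℤ, ∃ φ : zGraph ≃g zGraph, φ u = v) ∧
    (∃ (_ : MeasurableSpace (ℕ → ℤ)) (P : Measure (ℕ → ℤ)),
      IsGRW zGraph 0 P (fun t ω => ω t)) ∧
    ∀ (Ω : Type) (_ : MeasurableSpace Ω) (P : Measure Ω) (X : ℕ → Ω → ℤ), IsGRW zGraph 0 P X →
      0 < P {ω | ∃ t, 1 ≤ t ∧ X t ω = 0} ∧ P {ω | ∃ t, 1 ≤ t ∧ X t ω = 0} < 1 := by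
  refine ⟨inferInstance, connected, transitive, ?_, ?_⟩
  · apply exists_isGRW zGraph _ 0
    intro v
    rw [neighborFinset_eq]
    exact ⟨v - 2, by simp⟩
  · intro Ω mΩ P X h
    haveI : IsProbabilityMeasure P := ⟨h.prob⟩
    have hmeas : MeasurableSet {ω | ∃ t, 1 ≤ t ∧ X t ω = 0} := by
      have : {ω | ∃ t, 1 ≤ t ∧ X t ω = 0} = ⋃ t, ⋃ (_ : 1 ≤ t), {ω | X t ω = 0} := by
        ext ω; simp
      rw [this]
      exact MeasurableSet.iUnion fun t => MeasurableSet.iUnion fun _ => h.meas t 0
    constructor
    · have hpos := h.cyl_pos loopPath rfl 3 (by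
        intro s hs
        apply step_ne_zero
        interval_cases s
        · unfold fresh
          simp [crossed_zero, loopPath, adj_iff]
        · unfold fresh
          rw [crossed_succ, crossed_zero]
          simp [loopPath, adj_iff]
        · unfold fresh
          rw [crossed_succ, crossed_succ, crossed_zero]
          simp [loopPath, adj_iff])
      refine lt_of_lt_of_le (pos_iff_ne_zero.mpr hpos) (measure_mono ?_)
      intro ω hω
      refine ⟨3, by norm_num, ?_⟩
      have := hω 3 le_rfl
      rw [this]
      rfl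
    · have hpos := h.cyl_pos escPath rfl 3 (by
        intro s hs
        apply step_ne_zero
        interval_cases s
        · unfold fresh
          simp [crossed_zero, escPath, adj_iff]
        · unfold fresh
          rw [crossed_succ, crossed_zero]
          simp [escPath, adj_iff]
        · unfold fresh
          rw [crossed_succ, crossed_succ, crossed_zero]
          simp [escPath, adj_iff])
      have hle : P {ω | ∀ s ≤ 3, X s ω = escPath s} ≤ P {ω | ∃ t, 1 ≤ t ∧ X t ω = 0}ᶜ := by
        apply measure_mono_ae
        filter_upwards [h.ae_valid] with ω hv hω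
        show ω ∈ {ω | ∃ t, 1 ≤ t ∧ X t ω = 0}ᶜ
        rintro ⟨t, ht, hXt⟩
        have e0 : X 0 ω = 0 := hω 0 (by norm_num)
        have e1 : X 1 ω = 2 := hω 1 (by norm_num)
        have e2 : X 2 ω = 1 := hω 2 (by norm_num)
        have e3 : X 3 ω = 3 := hω 3 (by norm_num)
        rcases Nat.lt_or_ge t 3 with hlt | hge
        · interval_cases t
          · rw [e1] at hXt; norm_num at hXt
          · rw [e2] at hXt; norm_num at hXt
        · have := (esc_invariant hv e0 e1 e2 e3 (t - 3)).1
          simp only [Nat.sub_add_cancel hge] at this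
          rw [hXt] at this
          norm_num at this
      rw [prob_compl_eq_one_sub hmeas] at hle
      have h1 : 0 < 1 - P {ω | ∃ t, 1 ≤ t ∧ X t ω = 0} :=
        lt_of_lt_of_le (pos_iff_ne_zero.mpr hpos) hle
      exact tsub_pos_iff_lt.mp h1

end Pool.Agent.Results.MP_3fb035_pr.ZeroOneBFails
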